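import Pool.Agent.W744.BU.Stm

set_option autoImplicit false

namespace Pool.Agent.W450.BU.DAT

open Pool.Agent.W744.BU Matrix

abbrev SL := Matrix.SpecialLinearGroup (Fin 2) ℚ

/-- A matrix with given entries. -/
def mk (p q r s : ℚ) (h : p * s - q * r = 1) : SL := ⟨!![p, q; r, s], by rw [Matrix.det_fin_two_of]; exact h⟩

lemma mk_mul {p q r s p' q' r' s' : ℚ} (h : p * s - q * r = 1) (h' : p' * s' - q' * r' = 1) :
    mk p q r s h * mk p' q' r' s' h' =
      mk (p * p' + q * r') (p * q' + q * s') (r * p' + s * r') (r * q' + s * s')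
        (by linear_combination (p' * s' - q' * r') * h + h') := by
  apply Subtype.ext
  rw [Matrix.SpecialLinearGroup.coe_mul]
  show !![p, q; r, s] * !![p', q'; r', s'] = _
  rw [Matrix.mul_fin_two]
  rfl

lemma mk_inv {p q r s : ℚ} (h : p * s - q * r = 1) :
    (mk p q r s h)⁻¹ = mk s (-q) (-r) p (by linear_combination h) := by
  apply Subtype.ext
  rw [Matrix.SpecialLinearGroup.coe_inv]
  show Matrix.adjugate !![p, q; r, s] = _
  rw [Matrix.adjugate_fin_two_of]
  rfl

lemma mk_congr {p q r s p' q' r' s' : ℚ} (h : p * s - q * r = 1) (h' : p' * s' - q' * r' = 1)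
    (h1 : p = p') (h2 : q = q') (h3 : r = r') (h4 : s = s') : mk p q r s h = mk p' q' r' s' h' := by
  subst h1 h2 h3 h4; rfl

lemma eta (g : SL) : ∃ (p q r s : ℚ) (h : p * s - q * r = 1), g = mk p q r s h := by
  refine ⟨g.1 0 0, g.1 0 1, g.1 1 0, g.1 1 1, ?_, ?_⟩
  · have := g.2
    rw [Matrix.det_fin_two] at this
    exact this
  · apply Subtype.ext
    exact Matrix.eta_fin_two g.1

lemma one_eq : (1 : SL) = mk 1 0 0 1 (by norm_num) := by
  apply Subtype.ext
  simp [mk, Matrix.one_fin_two]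

def aa : SL := mk 1 2 0 1 (by norm_num)
def bb : SL := mk 1 0 3 1 (by norm_num)

lemma g0_eq : bb * aa * bb⁻¹ * aa⁻¹ = mk (-5) 12 (-18) 43 (by norm_num) := by
  unfold aa bb
  rw [mk_inv, mk_inv, mk_mul, mk_mul, mk_mul]
  apply mk_congr <;> norm_num

lemma aa_pow (n : ℕ) : aa ^ n = mk 1 (2 * n) 0 1 (by norm_num) := by
  induction n with
  | zero => rw [pow_zero, one_eq]; apply mk_congr <;> norm_num
  | succ n ih =>
    rw [pow_succ, ih]
    unfold aa
    rw [mk_mul]
    apply mk_congr <;> push_cast <;> ring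

def P (g : SL) : Prop := ∃ e : Ex SL, Ex.deg (bb * aa * bb⁻¹ * aa⁻¹) e = g

lemma P_mul {g h : SL} (hg : P g) (hh : P h) : P (g * h) := by
  obtain ⟨e, rfl⟩ := hg
  obtain ⟨f, rfl⟩ := hh
  exact ⟨.mul e f, rfl⟩

lemma P_inv {g : SL} (hg : P g) : P g⁻¹ := by
  obtain ⟨e, rfl⟩ := hg
  exact ⟨.inv e, rfl⟩

lemma P_conj {g : SL} (h : SL) (hg : P g) : P (h * g * h⁻¹) := by
  obtain ⟨e, rfl⟩ := hg
  exact ⟨.conj h e, rfl⟩

lemma P_comm {g : SL} (h : SL) (hg : P g) : P (g * h * g⁻¹ * h⁻¹) := by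
  have : g * h * g⁻¹ * h⁻¹ = g * (h * g⁻¹ * h⁻¹) := by group
  rw [this]
  exact P_mul hg (P_conj h (P_inv hg))

lemma P_g0 : P (mk (-5) 12 (-18) 43 (by norm_num)) := ⟨.base, g0_eq⟩

lemma P_g1 : P (mk 0 (1 / 18) (-18) 38 (by norm_num)) := by
  have h := P_conj (mk 1 (-5 / 18) 0 1 (by norm_num)) P_g0
  rw [mk_inv, mk_mul, mk_mul] at h
  convert h using 1
  apply mk_congr <;> norm_num

lemma P_k : P (mk (1 / 4) 0 (-513) 4 (by norm_num)) := by
  have h := P_comm (mk 2 0 0 (1 / 2) (by norm_num)) P_g1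
  rw [mk_inv, mk_inv, mk_mul, mk_mul, mk_mul] at h
  convert h using 1
  apply mk_congr <;> norm_num

lemma P_L (x : ℚ) : P (mk 1 0 x 1 (by norm_num)) := by
  have h := P_comm (mk 1 0 (x / 15) 1 (by norm_num)) P_k
  rw [mk_inv, mk_inv, mk_mul, mk_mul, mk_mul] at h
  convert h using 1
  apply mk_congr <;> ring

lemma P_U (x : ℚ) : P (mk 1 x 0 1 (by norm_num)) := by
  have h := P_conj (mk 0 1 (-1) 0 (by norm_num)) (P_L (-x))
  rw [mk_inv, mk_mul, mk_mul] at h
  convert h using 1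
  apply mk_congr <;> ring

lemma P_of_ne {p q r s : ℚ} (h : p * s - q * r = 1) (hr : r ≠ 0) : P (mk p q r s h) := by
  have h1 := P_mul (P_mul (P_U ((p - 1) / r)) (P_L r)) (P_U ((s - 1) / r))
  rw [mk_mul, mk_mul] at h1
  convert h1 using 1
  apply mk_congr
  · field_simp; ring
  · field_simp
    linear_combination (-1 : ℚ) * h
  · ring
  · field_simp; ring

lemma P_all (g : SL) : P g := by
  obtain ⟨p, q, r, s, h, rfl⟩ := eta g
  by_cases hr : r = 0
  · subst hr
    have hp : p ≠ 0 := by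
      rintro rfl
      norm_num at h
    have h1 := P_mul (P_L (-1)) (P_of_ne (p := p) (q := q) (r := p) (s := q + s)
      (by linear_combination h) hp)
    rw [mk_mul] at h1
    convert h1 using 1
    apply mk_congr <;> ring
  · exact P_of_ne h hr

/-- The set of matrices whose first column has larger second entry. -/
def EE : Set SL := {g : SL | abs (g.1 0 0) < abs (g.1 1 0)}

lemma mem_EE {p q r s : ℚ} (h : p * s - q * r = 1) : mk p q r s h ∈ EE ↔ |p| < |r| := Iff.rfl

theorem main : S_DAT := by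
  refine ⟨Dat.mk (G := SL) aa bb EE ?_ ?_ ?_ (fun g => (P_all g).choose)
    (fun g => (P_all g).choose_spec)⟩
  · intro h
    rw [g0_eq, one_eq] at h
    have := congrArg (fun g : SL => g.1 1 0) h
    norm_num [mk] at this
  · intro n hn g hg hc
    obtain ⟨p, q, r, s, h, rfl⟩ := eta g
    rw [aa_pow, mk_mul, mem_EE] at hc
    rw [mem_EE] at hg
    have hn' : (1 : ℚ) ≤ n := by exact_mod_cast hn
    rw [show (0 : ℚ) * p + 1 * r = r by ring, one_mul] at hc
    have h1 : |2 * (n : ℚ) * r| - |p| ≤ |p + 2 * n * r| := by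
      have := abs_sub_abs_le_abs_sub (2 * (n : ℚ) * r) (-p)
      rw [abs_neg, sub_neg_eq_add] at this
      rwa [add_comm p]
    rw [abs_mul, abs_of_nonneg (by positivity : (0 : ℚ) ≤ 2 * n)] at h1
    nlinarith [abs_nonneg r]
  · intro g hg
    obtain ⟨p, q, r, s, h, rfl⟩ := eta g
    unfold bb
    rw [mk_mul, mem_EE]
    rw [mem_EE, not_lt] at hg
    rw [show (1 : ℚ) * p + 0 * r = p by ring, show (3 : ℚ) * p + 1 * r = 3 * p + r by ring]
    have hp : p ≠ 0 := by
      rintro rfl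
      rw [abs_zero] at hg
      have hr : r = 0 := abs_nonpos_iff.mp hg
      subst hr
      norm_num at h
    have hp' : 0 < |p| := abs_pos.mpr hp
    have h1 : |3 * p| - |r| ≤ |3 * p + r| := by
      have := abs_sub_abs_le_abs_sub (3 * p) (-r)
      rwa [abs_neg, sub_neg_eq_add] at this
    rw [abs_mul, abs_of_pos (by norm_num : (0 : ℚ) < 3)] at h1
    linarith

end Pool.Agent.W450.BU.DAT
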